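import Mathlib
import Pool.Agent.VM.StmtsW

/-!
# ENE: the energy (squad VMV)
-/

set_option autoImplicit false

namespace Pool.Agent.VM.H24

open Finset Pool.Agent.VM

/-- the multiples of `u` among the `k ρ`, `|ρ| ≤ 2 q` -/
theorem card_mult (k q u : ℕ) (hk : 1 ≤ k) (hu : q ≤ 2 * u) (hu1 : 1 ≤ u) :
    ((Finset.Icc (-(2 * (q : ℤ))) (2 * (q : ℤ))).filter
      (fun r : ℤ => r ≠ 0 ∧ (u : ℤ) ∣ (k : ℤ) * r)).card ≤ 8 * k := by
  classical
  have hcard : ((Finset.Icc (-(4 * (k : ℤ))) (4 * (k : ℤ))).erase 0).card = 8 * k := by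
    rw [Finset.card_erase_of_mem (by rw [Finset.mem_Icc]; omega), Int.card_Icc]
    omega
  rw [← hcard]
  apply Finset.card_le_card_of_injOn (fun r : ℤ => (k : ℤ) * r / (u : ℤ))
  · intro r hr
    rw [Finset.mem_coe, Finset.mem_filter, Finset.mem_Icc] at hr
    obtain ⟨⟨h1, h2⟩, h3, j, hj⟩ := hr
    have hu0 : (u : ℤ) ≠ 0 := by omega
    have hk0 : (k : ℤ) ≠ 0 := by omega
    have hdiv : (k : ℤ) * r / (u : ℤ) = j := by
      rw [hj, Int.mul_ediv_cancel_left _ hu0]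
    rw [Finset.mem_coe, Finset.mem_erase, Finset.mem_Icc]
    simp only
    rw [hdiv]
    refine ⟨?_, ?_, ?_⟩
    · rintro rfl
      rw [mul_zero] at hj
      rcases mul_eq_zero.1 hj with h | h
      · exact hk0 h
      · exact h3 h
    · by_contra hcon
      push_neg at hcon
      have hu' : (1 : ℤ) ≤ u := by omega
      have hk' : (1 : ℤ) ≤ k := by omega
      have hq' : (q : ℤ) ≤ 2 * u := by omega
      nlinarith
    · by_contra hcon
      push_neg at hcon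
      have hu' : (1 : ℤ) ≤ u := by omega
      have hk' : (1 : ℤ) ≤ k := by omega
      have hq' : (q : ℤ) ≤ 2 * u := by omega
      nlinarith
  · intro r hr r' hr' h
    rw [Finset.mem_coe, Finset.mem_filter] at hr hr'
    obtain ⟨-, -, j, hj⟩ := hr
    obtain ⟨-, -, j', hj'⟩ := hr'
    have hu0 : (u : ℤ) ≠ 0 := by omega
    have hk0 : (k : ℤ) ≠ 0 := by omega
    simp only at h
    rw [hj, hj', Int.mul_ediv_cancel_left _ hu0, Int.mul_ediv_cancel_left _ hu0] at h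
    rw [← h, ← hj] at hj'
    exact (mul_left_cancel₀ hk0 hj').symm

/-- the third coordinate -/
theorem third (k K d : ℕ) (hk : 3 ≤ k) (t s₁ s₂ : ℝ) (n r : ℤ) :
    (d : ℝ) ^ (k - 2) * ((Nat.choose k 2 : ℝ) * t * (n : ℝ) ^ 2 +
      ((k : ℝ) - 1) * s₁ * (n : ℝ) + s₂) -
    (d : ℝ) ^ (k - 2) * ((Nat.choose k 2 : ℝ) * t * (((n - r : ℤ)) : ℝ) ^ 2 +
      ((k : ℝ) - 1) * s₁ * (((n - r : ℤ)) : ℝ) + s₂) =
    ((k : ℝ) * ((k : ℝ) - 1) * t * (d : ℝ) ^ (k - 2) * (r : ℝ)) * (n : ℝ) +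
      (d : ℝ) ^ (k - 2) * (((k : ℝ) - 1) * s₁ * (r : ℝ) -
        (Nat.choose k 2 : ℝ) * t * (r : ℝ) ^ 2) := by
  have h : (2 : ℝ) * (Nat.choose k 2 : ℝ) = (k : ℝ) * ((k : ℝ) - 1) := by
    rw [Nat.cast_choose_two]
    ring
  push_cast
  linear_combination ((d : ℝ) ^ (k - 2) * t * (r : ℝ) * (n : ℝ)) * h

section count
open scoped Classical
variable (k q D K : ℕ) (t s₁ s₂ : ℝ) (S : Finset ℕ)

/-- the box -/
noncomputable def Bx : Finset (ℕ × ℤ) := S ×ˢ Finset.Icc (-(q : ℤ)) (q : ℤ)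

theorem mem_Bx (v : ℕ × ℤ) : v ∈ Bx q S ↔ v.1 ∈ S ∧ |v.2| ≤ (q : ℤ) := by
  rw [Bx, Finset.mem_product, Finset.mem_Icc, abs_le]

theorem card_Bx : (Bx q S).card = S.card * (2 * q + 1) := by
  rw [Bx, Finset.card_product, Int.card_Icc]
  congr 1
  omega

/-- the close pairs -/
noncomputable def Vf : Finset ((ℕ × ℤ) × (ℕ × ℤ)) :=
  (Bx q S ×ˢ Bx q S).filter (fun v => Close k K t s₁ s₂ v)

theorem card_Vf : Nat.card {v : (ℕ × ℤ) × (ℕ × ℤ) // v.1.1 ∈ S ∧ v.2.1 ∈ S ∧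
    |v.1.2| ≤ (q : ℤ) ∧ |v.2.2| ≤ (q : ℤ) ∧ Close k K t s₁ s₂ v} = (Vf k q K t s₁ s₂ S).card := by
  apply Nat.subtype_card
  intro v
  rw [Vf, Finset.mem_filter, Finset.mem_product, mem_Bx, mem_Bx]
  tauto

/-- the set of EN2 -/
noncomputable def Ef : Finset (ℕ × ℤ) :=
  (Bx (2 * q) S).filter (fun v => v.2 ≠ 0 ∧
    Nr ((k : ℝ) * t * (v.1 : ℝ) ^ (k - 1) * (v.2 : ℝ)) (1 / (K : ℝ) ^ (k - 1)))

theorem card_Ef : Nat.card {v : ℕ × ℤ // v.1 ∈ S ∧ v.2 ≠ 0 ∧ |v.2| ≤ 2 * (q : ℤ) ∧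
    Nr ((k : ℝ) * t * (v.1 : ℝ) ^ (k - 1) * (v.2 : ℝ)) (1 / (K : ℝ) ^ (k - 1))} =
      (Ef k q K t S).card := by
  apply Nat.subtype_card
  intro v
  rw [Ef, Finset.mem_filter, mem_Bx]
  push_cast
  tauto

variable {k q D K t s₁ s₂ S}

/-- the first coordinate -/
theorem first (hS : ∀ d ∈ S, ∀ d' ∈ S, d ≠ d' →
      ¬ Nr (t * (((d : ℝ)) ^ k - ((d' : ℝ)) ^ k)) (1 / (K : ℝ) ^ k))
    {v : (ℕ × ℤ) × (ℕ × ℤ)} (hv : v ∈ Vf k q K t s₁ s₂ S) : v.2.1 = v.1.1 := by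
  rw [Vf, Finset.mem_filter, Finset.mem_product, mem_Bx, mem_Bx] at hv
  obtain ⟨⟨⟨h1, -⟩, h2, -⟩, h3, -, -⟩ := hv
  by_contra hne
  apply hS _ h1 _ h2 (Ne.symm hne)
  rw [mul_sub]
  exact h3

/-- the difference -/
theorem second (hk : 3 ≤ k) (hS : ∀ d ∈ S, ∀ d' ∈ S, d ≠ d' →
      ¬ Nr (t * (((d : ℝ)) ^ k - ((d' : ℝ)) ^ k)) (1 / (K : ℝ) ^ k))
    {v : (ℕ × ℤ) × (ℕ × ℤ)} (hv : v ∈ Vf k q K t s₁ s₂ S) (h0 : v.1.2 ≠ v.2.2) :
    (v.1.1, v.1.2 - v.2.2) ∈ Ef k q K t S := by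
  have hd := first hS hv
  rw [Vf, Finset.mem_filter, Finset.mem_product, mem_Bx, mem_Bx] at hv
  obtain ⟨⟨⟨h1, h1'⟩, h2, h2'⟩, -, h3, -⟩ := hv
  rw [Ef, Finset.mem_filter, mem_Bx]
  simp only
  refine ⟨⟨h1, ?_⟩, sub_ne_zero.2 h0, ?_⟩
  · rw [abs_le] at h1' h2' ⊢
    push_cast
    omega
  · have e : (k : ℝ) * t * (v.1.1 : ℝ) ^ (k - 1) * ((v.1.2 - v.2.2 : ℤ) : ℝ) =
        (v.1.1 : ℝ) ^ (k - 1) * ((k : ℝ) * t * (v.1.2 : ℝ) + s₁) -
        (v.2.1 : ℝ) ^ (k - 1) * ((k : ℝ) * t * (v.2.2 : ℝ) + s₁) := by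
      rw [hd]
      push_cast
      ring
    rw [e]
    exact h3

theorem card_V0 (hS : ∀ d ∈ S, ∀ d' ∈ S, d ≠ d' →
      ¬ Nr (t * (((d : ℝ)) ^ k - ((d' : ℝ)) ^ k)) (1 / (K : ℝ) ^ k)) :
    ((Vf k q K t s₁ s₂ S).filter (fun v => v.1.2 = v.2.2)).card ≤ S.card * (2 * q + 1) := by
  rw [← card_Bx]
  apply Finset.card_le_card_of_injOn (fun v => v.1)
  · intro v hv
    rw [Finset.mem_coe, Finset.mem_filter, Vf, Finset.mem_filter, Finset.mem_product] at hv
    exact hv.1.1.1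
  · intro v hv w hw h
    rw [Finset.mem_coe, Finset.mem_filter] at hv hw
    have h1 := first hS hv.1
    have h2 := first hS hw.1
    simp only at h
    have h3 : v.2 = w.2 := by
      apply Prod.ext
      · rw [h1, h2, h]
      · rw [← hv.2, ← hw.2, h]
    exact Prod.ext h h3

theorem card_V2 (u : ℕ) (hk : 1 ≤ k) (hu : q ≤ 2 * u) (hu1 : 1 ≤ u)
    (hS : ∀ d ∈ S, ∀ d' ∈ S, d ≠ d' →
      ¬ Nr (t * (((d : ℝ)) ^ k - ((d' : ℝ)) ^ k)) (1 / (K : ℝ) ^ k)) :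
    ((Vf k q K t s₁ s₂ S).filter (fun v => v.1.2 ≠ v.2.2 ∧
      (u : ℤ) ∣ (k : ℤ) * (v.1.2 - v.2.2))).card ≤ S.card * (2 * q + 1) * (8 * k) := by
  have h := Nat.mul_le_mul_left (S.card * (2 * q + 1)) (card_mult k q u hk hu hu1)
  refine le_trans ?_ h
  rw [← card_Bx, ← Finset.card_product]
  apply Finset.card_le_card_of_injOn (fun v => (v.1, v.1.2 - v.2.2))
  · intro v hv
    rw [Finset.mem_coe, Finset.mem_filter, Vf, Finset.mem_filter, Finset.mem_product] at hv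
    obtain ⟨⟨⟨h1, h2⟩, -⟩, h3, h4⟩ := hv
    rw [Finset.mem_coe, Finset.mem_product, Finset.mem_filter, Finset.mem_Icc]
    simp only
    refine ⟨h1, ?_, sub_ne_zero.2 h3, h4⟩
    rw [mem_Bx, abs_le] at h1 h2
    omega
  · intro v hv w hw h
    rw [Finset.mem_coe, Finset.mem_filter] at hv hw
    have h1 := first hS hv.1
    have h2 := first hS hw.1
    simp only [Prod.mk.injEq] at h
    obtain ⟨h3, h4⟩ := h
    have h5 : v.2 = w.2 := by
      apply Prod.ext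
      · rw [h1, h2, h3]
      · rw [h3] at h4
        omega
    exact Prod.ext h3 h5

theorem card_V1 (blk : BlkStmt) (dvd : DvdStmt) (u Q : ℕ) (b : ℤ) (M : ℝ) (hk : 3 ≤ k)
    (hkD : k ≤ D) (hK : 1 ≤ K) (hu1 : 1 ≤ u) (huQ : u ≤ Q) (hbu : Int.gcd b u = 1)
    (htb : |t - (b : ℝ) / (u : ℝ)| ≤ 1 / ((u : ℝ) * (Q : ℝ)))
    (hQ : Q = 4 * k * q * (2 * D) ^ (k - 2))
    (hN1 : 2 * D * ((k - 1) + 2 * K) < K ^ (k - 1))
    (hN2 : 8 * k * q * (2 * D) ^ (k - 2) < D * K ^ (k - 1))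
    (hSd : ∀ d ∈ S, D < d ∧ d ≤ 2 * D ∧ d.Prime ∧ ¬ d ∣ u)
    (hS : ∀ d ∈ S, ∀ d' ∈ S, d ≠ d' →
      ¬ Nr (t * (((d : ℝ)) ^ k - ((d' : ℝ)) ^ k)) (1 / (K : ℝ) ^ k))
    (hM : ((Ef k q K t S).card : ℝ) ≤ M) :
    (((Vf k q K t s₁ s₂ S).filter (fun v => v.1.2 ≠ v.2.2 ∧
      ¬ (u : ℤ) ∣ (k : ℤ) * (v.1.2 - v.2.2))).card : ℝ) ≤
        (((2 * q + 1) / D + 1 : ℕ) : ℝ) * M := by
  classical
  have hmain := Finset.card_le_mul_card_image_of_maps_to
    (f := fun v : (ℕ × ℤ) × (ℕ × ℤ) => (v.1.1, v.1.2 - v.2.2))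
    (s := (Vf k q K t s₁ s₂ S).filter (fun v => v.1.2 ≠ v.2.2 ∧
      ¬ (u : ℤ) ∣ (k : ℤ) * (v.1.2 - v.2.2))) (t := Ef k q K t S)
    (fun v hv => by
      rw [Finset.mem_filter] at hv
      exact second hk hS hv.1 hv.2.1) ((2 * q + 1) / D + 1) (fun c hc => by
      obtain ⟨d, r⟩ := c
      rw [Ef, Finset.mem_filter, mem_Bx] at hc
      simp only at hc
      obtain ⟨⟨hdS, hr2⟩, hr0, g, hg⟩ := hc
      obtain ⟨hDd, hd2, hdp, hdu⟩ := hSd d hdS
      have hDpos : 0 < D := by omega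
      have hdpos : (0 : ℝ) < (d : ℝ) := by
        have : 0 < d := by omega
        exact_mod_cast this
      have hKpos : (0 : ℝ) < (K : ℝ) ^ (k - 1) := by
        have : (0 : ℝ) < (K : ℝ) := by exact_mod_cast hK
        positivity
      by_cases hdg : (d : ℤ) ∣ g
      · -- the empty case
        have hempty : (Finset.filter (fun v : (ℕ × ℤ) × (ℕ × ℤ) =>
            (v.1.1, v.1.2 - v.2.2) = (d, r)) ((Vf k q K t s₁ s₂ S).filter
            (fun v => v.1.2 ≠ v.2.2 ∧ ¬ (u : ℤ) ∣ (k : ℤ) * (v.1.2 - v.2.2)))) = ∅ := by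
          rw [Finset.filter_eq_empty_iff]
          intro v hv heq
          rw [Finset.mem_filter] at hv
          simp only [Prod.mk.injEq] at heq
          obtain ⟨-, -, hv3⟩ := hv
          rw [heq.2] at hv3
          apply hv3
          obtain ⟨h, hh⟩ := hdg
          have hX : (u : ℤ) ∣ (k : ℤ) * (d : ℤ) ^ (k - 2) * r := by
            apply dvd t (1 / ((D : ℝ) * (K : ℝ) ^ (k - 1))) b u Q _ hu1 huQ hbu htb
            · have h1 : |(k : ℤ) * (d : ℤ) ^ (k - 2) * r| ≤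
                  (k : ℤ) * (2 * (D : ℤ)) ^ (k - 2) * (2 * (q : ℤ)) := by
                rw [abs_mul, abs_mul, abs_of_nonneg (by positivity : (0 : ℤ) ≤ (k : ℤ)),
                  abs_of_nonneg (by positivity : (0 : ℤ) ≤ (d : ℤ) ^ (k - 2))]
                have h2 : (d : ℤ) ^ (k - 2) ≤ (2 * (D : ℤ)) ^ (k - 2) := by
                  apply pow_le_pow_left₀ (by positivity)
                  exact_mod_cast hd2
                have h3 : |r| ≤ 2 * (q : ℤ) := by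
                  push_cast at hr2
                  exact hr2
                apply mul_le_mul _ h3 (abs_nonneg _) (by positivity)
                exact mul_le_mul_of_nonneg_left h2 (by positivity)
              have h4 : (Q : ℤ) = 2 * ((k : ℤ) * (2 * (D : ℤ)) ^ (k - 2) * (2 * (q : ℤ))) := by
                rw [hQ]
                push_cast
                ring
              rw [h4]
              linarith
            · rw [div_lt_div_iff₀]
              · have h5 : ((8 * k * q * (2 * D) ^ (k - 2) : ℕ) : ℝ) <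
                    ((D * K ^ (k - 1) : ℕ) : ℝ) := by exact_mod_cast hN2
                have h6 : 2 * (Q : ℝ) = ((8 * k * q * (2 * D) ^ (k - 2) : ℕ) : ℝ) := by
                  rw [hQ]
                  push_cast
                  ring
                rw [one_mul, one_mul, h6]
                push_cast at h5 ⊢
                exact h5
              · have : (0 : ℝ) < (D : ℝ) := by exact_mod_cast hDpos
                positivity
              · have : (0 : ℝ) < (Q : ℝ) := by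
                  have : 0 < Q := by omega
                  exact_mod_cast this
                positivity
            · refine ⟨h, ?_⟩
              have hpow : (d : ℝ) ^ (k - 1) = (d : ℝ) * (d : ℝ) ^ (k - 2) := by
                rw [← pow_succ']
                congr 1
                omega
              have e1 : t * (((k : ℤ) * (d : ℤ) ^ (k - 2) * r : ℤ) : ℝ) - (h : ℝ) =
                  ((k : ℝ) * t * (d : ℝ) ^ (k - 1) * (r : ℝ) - (g : ℝ)) / (d : ℝ) := by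
                rw [hh, hpow]
                push_cast
                field_simp
              rw [e1, abs_div, abs_of_pos hdpos, div_le_div_iff₀ hdpos (by
                have : (0 : ℝ) < (D : ℝ) := by exact_mod_cast hDpos
                positivity)]
              have h7 : (D : ℝ) ≤ (d : ℝ) := by exact_mod_cast hDd.le
              have h8 : |(k : ℝ) * t * (d : ℝ) ^ (k - 1) * (r : ℝ) - (g : ℝ)| *
                  ((D : ℝ) * (K : ℝ) ^ (k - 1)) ≤
                  (1 / (K : ℝ) ^ (k - 1)) * ((D : ℝ) * (K : ℝ) ^ (k - 1)) := by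
                apply mul_le_mul_of_nonneg_right hg
                positivity
              refine h8.trans ?_
              rw [one_mul]
              have h9 : (1 / (K : ℝ) ^ (k - 1)) * ((D : ℝ) * (K : ℝ) ^ (k - 1)) = (D : ℝ) := by
                field_simp
              rw [h9]
              exact h7
          have hcop : IsCoprime (u : ℤ) ((d : ℤ) ^ (k - 2)) := by
            apply IsCoprime.pow_right
            rw [Nat.isCoprime_iff_coprime]
            exact ((Nat.Prime.coprime_iff_not_dvd hdp).2 hdu).symm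
          have hX2 : (u : ℤ) ∣ (d : ℤ) ^ (k - 2) * ((k : ℤ) * r) := by
            have e : (d : ℤ) ^ (k - 2) * ((k : ℤ) * r) = (k : ℤ) * (d : ℤ) ^ (k - 2) * r := by ring
            rw [e]
            exact hX
          exact hcop.dvd_of_dvd_mul_left hX2
        rw [hempty, Finset.card_empty]
        exact Nat.zero_le _
      · -- the main case
        have hphi := blk d (((k : ℤ) - 1) * g) (-(q : ℤ))
          ((k : ℝ) * ((k : ℝ) - 1) * t * (d : ℝ) ^ (k - 2) * (r : ℝ))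
          ((d : ℝ) ^ (k - 2) * (((k : ℝ) - 1) * s₁ * (r : ℝ) -
            (Nat.choose k 2 : ℝ) * t * (r : ℝ) ^ 2))
          (((k : ℝ) - 1) / (K : ℝ) ^ (k - 1)) (1 / (K : ℝ) ^ (k - 2)) (2 * q + 1) hdp
          (by
            intro h
            rcases (Nat.prime_iff_prime_int.1 hdp).dvd_or_dvd h with h1 | h1
            · have h2 := Int.le_of_dvd (by omega) h1
              omega
            · exact hdg h1)
          (by
            have hpow : (d : ℝ) ^ (k - 1) = (d : ℝ) * (d : ℝ) ^ (k - 2) := by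
              rw [← pow_succ']
              congr 1
              omega
            have e1 : (k : ℝ) * ((k : ℝ) - 1) * t * (d : ℝ) ^ (k - 2) * (r : ℝ) -
                ((((k : ℤ) - 1) * g : ℤ) : ℝ) / (d : ℝ) = ((k : ℝ) - 1) *
                ((k : ℝ) * t * (d : ℝ) ^ (k - 1) * (r : ℝ) - (g : ℝ)) / (d : ℝ) := by
              rw [hpow]
              push_cast
              field_simp
            have hk1 : (0 : ℝ) ≤ (k : ℝ) - 1 := by
              have : (1 : ℝ) ≤ (k : ℝ) := by exact_mod_cast (by omega : 1 ≤ k)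
              linarith
            rw [e1, abs_div, abs_of_pos hdpos, abs_mul, abs_of_nonneg hk1]
            apply div_le_div_of_nonneg_right _ hdpos.le
            rw [div_eq_mul_one_div]
            exact mul_le_mul_of_nonneg_left hg hk1)
          (by
            have hpowK : (K : ℝ) ^ (k - 1) = (K : ℝ) * (K : ℝ) ^ (k - 2) := by
              rw [← pow_succ']
              congr 1
              omega
            have hK0 : (0 : ℝ) < (K : ℝ) := by exact_mod_cast hK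
            have e1 : 2 * (1 / (K : ℝ) ^ (k - 2)) + ((k : ℝ) - 1) / (K : ℝ) ^ (k - 1) =
                (((k : ℝ) - 1) + 2 * (K : ℝ)) / (K : ℝ) ^ (k - 1) := by
              rw [hpowK]
              field_simp
              ring
            rw [e1, div_lt_div_iff₀ hKpos hdpos, one_mul]
            have h5 : ((2 * D * ((k - 1) + 2 * K) : ℕ) : ℝ) < ((K ^ (k - 1) : ℕ) : ℝ) := by
              exact_mod_cast hN1
            push_cast [Nat.cast_sub (by omega : 1 ≤ k)] at h5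
            have h6 : (d : ℝ) ≤ 2 * (D : ℝ) := by exact_mod_cast hd2
            have hk1 : (0 : ℝ) ≤ (k : ℝ) - 1 := by
              have : (1 : ℝ) ≤ (k : ℝ) := by exact_mod_cast (by omega : 1 ≤ k)
              linarith
            have h7 : (((k : ℝ) - 1) + 2 * (K : ℝ)) * (d : ℝ) ≤
                2 * (D : ℝ) * (((k : ℝ) - 1) + 2 * (K : ℝ)) := by
              rw [mul_comm]
              apply mul_le_mul_of_nonneg_right h6
              positivity
            exact lt_of_le_of_lt h7 h5)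
        have hnat : Nat.card {n : ℤ // -(q : ℤ) ≤ n ∧ n < -(q : ℤ) + ((2 * q + 1 : ℕ) : ℤ) ∧
            Nr ((k : ℝ) * ((k : ℝ) - 1) * t * (d : ℝ) ^ (k - 2) * (r : ℝ) * (n : ℝ) +
              (d : ℝ) ^ (k - 2) * (((k : ℝ) - 1) * s₁ * (r : ℝ) -
            (Nat.choose k 2 : ℝ) * t * (r : ℝ) ^ 2)) (1 / (K : ℝ) ^ (k - 2))} =
            ((Finset.Icc (-(q : ℤ)) (q : ℤ)).filter (fun n : ℤ =>
              Nr ((k : ℝ) * ((k : ℝ) - 1) * t * (d : ℝ) ^ (k - 2) * (r : ℝ) * (n : ℝ) +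
              (d : ℝ) ^ (k - 2) * (((k : ℝ) - 1) * s₁ * (r : ℝ) -
            (Nat.choose k 2 : ℝ) * t * (r : ℝ) ^ 2)) (1 / (K : ℝ) ^ (k - 2)))).card := by
          apply Nat.subtype_card
          intro n
          rw [Finset.mem_filter, Finset.mem_Icc]
          push_cast
          constructor
          · rintro ⟨⟨h1, h2⟩, h3⟩
            exact ⟨h1, by omega, h3⟩
          · rintro ⟨h1, h2, h3⟩
            exact ⟨⟨h1, by omega⟩, h3⟩
        rw [hnat] at hphi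
        have hle : (2 * q + 1) / d + 1 ≤ (2 * q + 1) / D + 1 := by
          apply Nat.add_le_add_right
          exact Nat.div_le_div_left hDd.le hDpos
        refine le_trans ?_ (hphi.trans hle)
        apply Finset.card_le_card_of_injOn (fun v => v.1.2)
        · intro v hv
          rw [Finset.mem_coe, Finset.mem_filter, Finset.mem_filter] at hv
          obtain ⟨⟨hv1, -⟩, hv3⟩ := hv
          simp only [Prod.mk.injEq] at hv3
          have hd' := first hS hv1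
          rw [Vf, Finset.mem_filter, Finset.mem_product, mem_Bx, mem_Bx, Close] at hv1
          obtain ⟨⟨⟨h1, h1'⟩, h2, h2'⟩, -, -, h5⟩ := hv1
          rw [Finset.mem_coe, Finset.mem_filter, Finset.mem_Icc]
          rw [abs_le] at h1'
          refine ⟨h1', ?_⟩
          have e2 : v.2.2 = v.1.2 - r := by omega
          rw [hd', hv3.1, e2] at h5
          simp only
          rw [third k K d hk] at h5
          exact h5
        · intro v hv w hw h
          rw [Finset.mem_coe, Finset.mem_filter, Finset.mem_filter] at hv hw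
          obtain ⟨⟨hv1, -⟩, hv3⟩ := hv
          obtain ⟨⟨hw1, -⟩, hw3⟩ := hw
          simp only [Prod.mk.injEq] at hv3 hw3 h
          have h1 := first hS hv1
          have h2 := first hS hw1
          have e1 : v.1 = w.1 := Prod.ext (by rw [hv3.1, hw3.1]) h
          have e2 : v.2 = w.2 := by
            apply Prod.ext
            · rw [h1, h2, e1]
            · omega
          exact Prod.ext e1 e2)
  have h2 : (((Vf k q K t s₁ s₂ S).filter (fun v => v.1.2 ≠ v.2.2 ∧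
      ¬ (u : ℤ) ∣ (k : ℤ) * (v.1.2 - v.2.2))).card : ℝ) ≤
      (((2 * q + 1) / D + 1 : ℕ) : ℝ) * ((Ef k q K t S).card : ℝ) := by
    exact_mod_cast hmain
  refine h2.trans ?_
  exact mul_le_mul_of_nonneg_left hM (Nat.cast_nonneg _)

end count

open scoped Classical in
/-- ENE -/
theorem ene (k : ℕ) (hk : 3 ≤ k) (num : NumStmt) (en1 : ∀ c₀ : ℕ, 1 ≤ c₀ → NumP k c₀ → En1Stmt k c₀)
    (en2 : ∀ c₀ : ℕ, 1 ≤ c₀ → NumP k c₀ → En2Stmt k c₀) (dir : DirStmt) (dvd : DvdStmt)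
    (blk : BlkStmt) : EneStmt k := by
  obtain ⟨c₀, hc₀, hN⟩ := num k hk
  refine ⟨c₀, hc₀, ?_⟩
  intro ε hε
  obtain ⟨qa, hqa⟩ := en1 c₀ hc₀ hN ε hε
  obtain ⟨C₂, qb, hC₂, hqb⟩ := en2 c₀ hc₀ hN
  obtain ⟨qc, hqc⟩ := hN (k + 1)
  refine ⟨3 * (8 * (k : ℝ) + 1) + 16 * (c₀ : ℝ) ^ 2 * C₂, qa + qb + qc + 1, by positivity, ?_⟩
  intro q D K t a hq hD hK hgcd hta
  obtain ⟨hBD, hK1, hn3, hn4, hn5, hn6, hn7, hn8, hn9, hn10, hn11, hn12, hn13, hn14, hn15⟩ :=
    hqc q D K (by omega) hD hK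
  have hDpos : 1 ≤ D := by omega
  have hkey : k * q * (2 * D) ^ (k - 2) * 4 * D = 2 * (k * q * (2 * D) ^ (k - 1)) := by
    have : (2 * D) ^ (k - 1) = (2 * D) * (2 * D) ^ (k - 2) := by
      rw [← pow_succ']
      congr 1
      omega
    rw [this]
    ring
  -- Dirichlet at the level K ^ (k - 1) / 2
  obtain ⟨b₁, u₁, hu₁, hu₁Q, hqu₁, hbu₁, htb₁⟩ := dir t a q (K ^ (k - 1) / 2) (by omega) hgcd hta
    (by omega)
  -- Dirichlet at the level 4 k q (2 D) ^ (k - 2)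
  have hpos2 : 1 ≤ (2 * D) ^ (k - 2) := Nat.one_le_pow _ _ (by omega)
  obtain ⟨b₂, u₂, hu₂, hu₂Q, hqu₂, hbu₂, htb₂⟩ := dir t a q (4 * k * q * (2 * D) ^ (k - 2))
    (by omega) hgcd hta (by
      have h1 : q * 1 ≤ q * (2 * D) ^ (k - 2) := Nat.mul_le_mul_left q hpos2
      have h2 : 2 * (q * (2 * D) ^ (k - 2)) ≤ 4 * k * (q * (2 * D) ^ (k - 2)) :=
        Nat.mul_le_mul_right _ (by omega)
      have h3 : 4 * k * q * (2 * D) ^ (k - 2) = 4 * k * (q * (2 * D) ^ (k - 2)) := by ring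
      rw [h3]
      omega)
  have hu₁D : u₁ < D ^ (k + 3) := by
    have h1 : D ^ (k + 2) ≤ D ^ (k + 3) := Nat.pow_le_pow_right hDpos (by omega)
    have h2 : 1 ≤ D ^ (k + 2) := Nat.one_le_pow _ _ hDpos
    omega
  have hu₂D : u₂ < D ^ (k + 3) := by
    have h1 : D ^ (k + 2) ≤ D ^ (k + 3) := Nat.pow_le_pow_right hDpos (by omega)
    have h2 : 4 * k * q * (2 * D) ^ (k - 2) * 1 ≤ 4 * k * q * (2 * D) ^ (k - 2) * D :=
      Nat.mul_le_mul_left _ hDpos
    have h3 : 4 * k * q * (2 * D) ^ (k - 2) * D = 2 * k * q * (2 * D) ^ (k - 1) := by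
      have h4 : 4 * k * q * (2 * D) ^ (k - 2) * D = k * q * (2 * D) ^ (k - 2) * 4 * D := by ring
      rw [h4, hkey]
      ring
    omega
  obtain ⟨S, hS1, hS2, hS3⟩ := hqa q D K t a (by omega) hD hK hgcd hta u₁ u₂ hu₁ hu₂ hu₁D hu₂D
  refine ⟨S, fun d hd => ⟨(hS1 d hd).1, (hS1 d hd).2.1⟩, hS2, ?_⟩
  intro s₁ s₂
  have hM := hqb q D K t b₁ u₁ (by omega) hD hK hu₁ hu₁Q hqu₁ hbu₁ htb₁ S
    (fun d hd => ⟨(hS1 d hd).1, (hS1 d hd).2.1, (hS1 d hd).2.2.1, (hS1 d hd).2.2.2.1⟩)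
  rw [card_Ef] at hM
  rw [card_Vf]
  have hV0 := card_V0 (k := k) (q := q) (K := K) (t := t) (s₁ := s₁) (s₂ := s₂) (S := S) hS3
  have hV2 := card_V2 (k := k) (q := q) (K := K) (t := t) (s₁ := s₁) (s₂ := s₂) (S := S) u₂
    (by omega) hqu₂ hu₂ hS3
  have hV1 := card_V1 (k := k) (q := q) (D := D) (K := K) (t := t) (s₁ := s₁) (s₂ := s₂) (S := S)
    blk dvd u₂ (4 * k * q * (2 * D) ^ (k - 2)) b₂ (C₂ * (q : ℝ)) hk (by omega) hK1 hu₂ hu₂Q hbu₂
    htb₂ rfl hn10 hn11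
    (fun d hd => ⟨(hS1 d hd).1, (hS1 d hd).2.1, (hS1 d hd).2.2.1, (hS1 d hd).2.2.2.2⟩) hS3 hM
  have hsplit : (Vf k q K t s₁ s₂ S).card ≤
      ((Vf k q K t s₁ s₂ S).filter (fun v => v.1.2 = v.2.2)).card +
      (((Vf k q K t s₁ s₂ S).filter (fun v => v.1.2 ≠ v.2.2 ∧
        (u₂ : ℤ) ∣ (k : ℤ) * (v.1.2 - v.2.2))).card +
      ((Vf k q K t s₁ s₂ S).filter (fun v => v.1.2 ≠ v.2.2 ∧
        ¬ (u₂ : ℤ) ∣ (k : ℤ) * (v.1.2 - v.2.2))).card) := by
    refine le_trans ?_ (le_trans (Finset.card_union_le _ _)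
      (Nat.add_le_add_left (Finset.card_union_le _ _) _))
    apply Finset.card_le_card
    intro v hv
    rw [Finset.mem_union, Finset.mem_union, Finset.mem_filter, Finset.mem_filter,
      Finset.mem_filter]
    tauto
  -- real numbers
  have hqpos : (1 : ℝ) ≤ (q : ℝ) := by
    have : 1 ≤ q := by omega
    exact_mod_cast this
  have hq0 : (0 : ℝ) < (q : ℝ) := by linarith
  have hDq : (D : ℝ) ≤ (q : ℝ) ^ ε * (S.card : ℝ) := by
    have h1 : (D : ℝ) ^ 2 ≤ (q : ℝ) := by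
      have h2 : D ≤ Nat.sqrt q := by
        rw [hD]
        exact Nat.div_le_self _ _
      have h3 : D ^ 2 ≤ q := by
        rw [pow_two]
        exact le_trans (Nat.mul_le_mul h2 h2) (Nat.sqrt_le q)
      exact_mod_cast h3
    have h4 : (D : ℝ) ≤ (q : ℝ) ^ (1 / 2 : ℝ) := by
      rw [← Real.sqrt_eq_rpow]
      exact Real.le_sqrt_of_sq_le h1
    have h5 : (q : ℝ) ^ (1 / 2 : ℝ) = (q : ℝ) ^ ε * (q : ℝ) ^ (1 / 2 - ε : ℝ) := by
      rw [← Real.rpow_add hq0]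
      congr 1
      ring
    rw [h5] at h4
    refine h4.trans ?_
    exact mul_le_mul_of_nonneg_left hS2 (Real.rpow_nonneg hq0.le _)
  have hqe : (q : ℝ) ≤ (q : ℝ) ^ (1 + ε) := by
    have h1 : (q : ℝ) ^ (1 : ℝ) ≤ (q : ℝ) ^ (1 + ε) :=
      Real.rpow_le_rpow_of_exponent_le hqpos (by linarith)
    rw [Real.rpow_one] at h1
    exact h1
  have hqe2 : (q : ℝ) ^ (1 + ε) = (q : ℝ) * (q : ℝ) ^ ε := by
    rw [Real.rpow_add hq0, Real.rpow_one]
  have hS0 : (0 : ℝ) ≤ (S.card : ℝ) := Nat.cast_nonneg _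
  have hfib : (((2 * q + 1) / D + 1 : ℕ) : ℝ) ≤ 16 * (c₀ : ℝ) ^ 2 * (D : ℝ) := by
    have h1 : (2 * q + 1) / D + 1 ≤ 16 * c₀ ^ 2 * D := by
      have h2 : 2 * q + 1 ≤ 3 * q := by omega
      have h3 : 3 * q ≤ (15 * c₀ ^ 2 * D) * D := by
        calc 3 * q ≤ 3 * (5 * c₀ ^ 2 * D ^ 2) := Nat.mul_le_mul_left 3 hn15
          _ = (15 * c₀ ^ 2 * D) * D := by ring
      have h4 : (2 * q + 1) / D ≤ 15 * c₀ ^ 2 * D := by
        apply Nat.div_le_of_le_mul
        exact le_trans h2 (le_trans h3 (le_of_eq (mul_comm _ _)))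
      have h5 : 1 ≤ c₀ ^ 2 * D := Nat.mul_pos (pow_pos hc₀ 2) hDpos
      have h6 : 16 * c₀ ^ 2 * D = 15 * c₀ ^ 2 * D + c₀ ^ 2 * D := by ring
      omega
    exact_mod_cast h1
  have hV1' : (((Vf k q K t s₁ s₂ S).filter (fun v => v.1.2 ≠ v.2.2 ∧
      ¬ (u₂ : ℤ) ∣ (k : ℤ) * (v.1.2 - v.2.2))).card : ℝ) ≤
      16 * (c₀ : ℝ) ^ 2 * C₂ * (q : ℝ) ^ (1 + ε) * (S.card : ℝ) := by
    refine hV1.trans ?_
    have h1 : (((2 * q + 1) / D + 1 : ℕ) : ℝ) * (C₂ * (q : ℝ)) ≤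
        16 * (c₀ : ℝ) ^ 2 * (D : ℝ) * (C₂ * (q : ℝ)) :=
      mul_le_mul_of_nonneg_right hfib (by positivity)
    refine h1.trans ?_
    have h2 : 16 * (c₀ : ℝ) ^ 2 * (D : ℝ) * (C₂ * (q : ℝ)) ≤
        16 * (c₀ : ℝ) ^ 2 * ((q : ℝ) ^ ε * (S.card : ℝ)) * (C₂ * (q : ℝ)) := by
      apply mul_le_mul_of_nonneg_right _ (by positivity)
      exact mul_le_mul_of_nonneg_left hDq (by positivity)
    refine h2.trans (le_of_eq ?_)
    rw [hqe2]
    ring
  have hV0' : (((Vf k q K t s₁ s₂ S).filter (fun v => v.1.2 = v.2.2)).card : ℝ) ≤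
      3 * (q : ℝ) ^ (1 + ε) * (S.card : ℝ) := by
    have h1 : (((Vf k q K t s₁ s₂ S).filter (fun v => v.1.2 = v.2.2)).card : ℝ) ≤
        (S.card : ℝ) * (2 * (q : ℝ) + 1) := by exact_mod_cast hV0
    refine h1.trans ?_
    have h2 : 2 * (q : ℝ) + 1 ≤ 3 * (q : ℝ) ^ (1 + ε) := by linarith
    calc (S.card : ℝ) * (2 * (q : ℝ) + 1) ≤ (S.card : ℝ) * (3 * (q : ℝ) ^ (1 + ε)) :=
          mul_le_mul_of_nonneg_left h2 hS0
      _ = 3 * (q : ℝ) ^ (1 + ε) * (S.card : ℝ) := by ring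
  have hV2' : (((Vf k q K t s₁ s₂ S).filter (fun v => v.1.2 ≠ v.2.2 ∧
        (u₂ : ℤ) ∣ (k : ℤ) * (v.1.2 - v.2.2))).card : ℝ) ≤
      24 * (k : ℝ) * (q : ℝ) ^ (1 + ε) * (S.card : ℝ) := by
    have h1 : (((Vf k q K t s₁ s₂ S).filter (fun v => v.1.2 ≠ v.2.2 ∧
        (u₂ : ℤ) ∣ (k : ℤ) * (v.1.2 - v.2.2))).card : ℝ) ≤
        (S.card : ℝ) * (2 * (q : ℝ) + 1) * (8 * (k : ℝ)) := by exact_mod_cast hV2
    refine h1.trans ?_
    have h2 : 2 * (q : ℝ) + 1 ≤ 3 * (q : ℝ) ^ (1 + ε) := by linarith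
    calc (S.card : ℝ) * (2 * (q : ℝ) + 1) * (8 * (k : ℝ)) ≤
          (S.card : ℝ) * (3 * (q : ℝ) ^ (1 + ε)) * (8 * (k : ℝ)) := by
          apply mul_le_mul_of_nonneg_right _ (by positivity)
          exact mul_le_mul_of_nonneg_left h2 hS0
      _ = 24 * (k : ℝ) * (q : ℝ) ^ (1 + ε) * (S.card : ℝ) := by ring
  have hsplit' : ((Vf k q K t s₁ s₂ S).card : ℝ) ≤
      (((Vf k q K t s₁ s₂ S).filter (fun v => v.1.2 = v.2.2)).card : ℝ) +
      ((((Vf k q K t s₁ s₂ S).filter (fun v => v.1.2 ≠ v.2.2 ∧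
        (u₂ : ℤ) ∣ (k : ℤ) * (v.1.2 - v.2.2))).card : ℝ) +
      (((Vf k q K t s₁ s₂ S).filter (fun v => v.1.2 ≠ v.2.2 ∧
        ¬ (u₂ : ℤ) ∣ (k : ℤ) * (v.1.2 - v.2.2))).card : ℝ)) := by exact_mod_cast hsplit
  refine hsplit'.trans ?_
  have hfin : (3 * (8 * (k : ℝ) + 1) + 16 * (c₀ : ℝ) ^ 2 * C₂) * (q : ℝ) ^ (1 + ε) *
      (S.card : ℝ) = 3 * (q : ℝ) ^ (1 + ε) * (S.card : ℝ) +
      (24 * (k : ℝ) * (q : ℝ) ^ (1 + ε) * (S.card : ℝ) +
        16 * (c₀ : ℝ) ^ 2 * C₂ * (q : ℝ) ^ (1 + ε) * (S.card : ℝ)) := by ring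
  rw [hfin]
  linarith

end Pool.Agent.VM.H24
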