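import Mathlib
import Pool.Agent.Helper7_VM.StmtsN

/-!
# NUMF: the choice of the parameters for the energy bound, `θ = (k - 2) / (k + 1)`
-/

set_option autoImplicit false

namespace Pool.Agent.VM.H24N

open Pool.Agent.VM Pool.Agent.VM.H7

theorem ev_rpow (c A : ℝ) (hc : 0 < c) : ∀ᶠ N : ℕ in Filter.atTop, A ≤ (N : ℝ) ^ c :=
  ((tendsto_rpow_atTop hc).comp tendsto_natCast_atTop_atTop).eventually_ge_atTop A

theorem rpow_pow_eq (x c : ℝ) (n : ℕ) (hx : 0 ≤ x) : (x ^ c) ^ n = x ^ (c * (n : ℝ)) := by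
  rw [Real.rpow_mul hx, Real.rpow_natCast]

/-- the properties of the range of the primes -/
theorem floor_props (x a : ℝ) (hx : 0 ≤ x) (h4 : 4 ≤ x ^ a) :
    2 ≤ ⌊x ^ a⌋₊ ∧ ((⌊x ^ a⌋₊ : ℕ) : ℝ) ≤ x ^ a ∧ x ^ a / 2 ≤ ((⌊x ^ a⌋₊ : ℕ) : ℝ) := by
  have h0 : 0 ≤ x ^ a := Real.rpow_nonneg hx a
  have h2 : 2 ≤ ⌊x ^ a⌋₊ := Nat.le_floor (by push_cast; linarith)
  refine ⟨h2, Nat.floor_le h0, ?_⟩
  have h3 := Nat.lt_floor_add_one (x ^ a)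
  have h5 : (2 : ℝ) ≤ ((⌊x ^ a⌋₊ : ℕ) : ℝ) := by exact_mod_cast h2
  linarith

/-- the natural numbers: the powers of `P` -/
theorem pow_props (N P i k B' : ℕ) (hk : 1 ≤ k) (hN : 8 ≤ N) (hP : 2 ≤ P) (hB : N ^ 2 ≤ P ^ B') :
    2 * (2 * P) ^ (k - 1) * (4 * (2 * P) ^ i * N) < P ^ (2 * (i + k) + B' + 2) ∧
    4 * (2 * P) ^ i * N + 1 < P ^ (2 * (i + k) + B' + 2) ∧
    (2 * P) ^ i < P ^ (2 * (i + k) + B' + 2) := by
  have h2P : 2 * P ≤ P ^ 2 := by nlinarith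
  have hj : ∀ j : ℕ, (2 * P) ^ j ≤ P ^ (2 * j) := by
    intro j
    rw [pow_mul]
    exact Nat.pow_le_pow_left h2P j
  have h8 : 8 * N ≤ P ^ B' := le_trans (by nlinarith) hB
  have hP1 : 1 ≤ P := by omega
  have hA : 2 * (2 * P) ^ (k - 1) * (4 * (2 * P) ^ i * N) < P ^ (2 * (i + k) + B' + 2) := by
    calc 2 * (2 * P) ^ (k - 1) * (4 * (2 * P) ^ i * N)
        = (8 * N) * ((2 * P) ^ (k - 1) * (2 * P) ^ i) := by ring
      _ ≤ P ^ B' * (P ^ (2 * (k - 1)) * P ^ (2 * i)) :=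
          Nat.mul_le_mul h8 (Nat.mul_le_mul (hj _) (hj _))
      _ = P ^ (B' + (2 * (k - 1) + 2 * i)) := by rw [pow_add, pow_add]
      _ < P ^ (2 * (i + k) + B' + 2) := Nat.pow_lt_pow_right (by omega) (by omega)
  have h1 : 1 ≤ (2 * P) ^ i := Nat.one_le_pow _ _ (by omega)
  have h1' : 1 ≤ (2 * P) ^ (k - 1) := Nat.one_le_pow _ _ (by omega)
  have hpos : 1 ≤ (2 * P) ^ i * N := Nat.mul_pos h1 (by omega)
  refine ⟨hA, ?_, ?_⟩
  · refine lt_of_le_of_lt ?_ hA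
    calc 4 * (2 * P) ^ i * N + 1 ≤ 2 * 1 * (4 * (2 * P) ^ i * N) := by nlinarith
      _ ≤ 2 * (2 * P) ^ (k - 1) * (4 * (2 * P) ^ i * N) :=
          Nat.mul_le_mul_right _ (Nat.mul_le_mul_left _ h1')
  · calc (2 * P) ^ i ≤ P ^ (2 * i) := hj i
      _ < P ^ (2 * (i + k) + B' + 2) := Nat.pow_lt_pow_right (by omega) (by omega)

/-- the condition `n2` from an inequality in `ℝ` -/
theorem n2_of (k N K P i : ℕ) (hK : 1 ≤ K) (hN : 1 ≤ N) (hP : 1 ≤ P)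
    (h1 : (2 * P) ^ i * K ≤ N)
    (key : 32 * ((k : ℝ) + 1) * (N : ℝ) ^ 3 * (2 * (P : ℝ)) ^ (k - 1) < (K : ℝ) ^ (k + 1)) :
    del k N K < 1 / (2 * ((2 * (2 * P) ^ (k - 1) * (4 * (2 * P) ^ i * N) : ℕ) : ℝ)) := by
  have hK0 : (0 : ℝ) < (K : ℝ) := by exact_mod_cast hK
  have hN0 : (0 : ℝ) < (N : ℝ) := by exact_mod_cast hN
  have hP0 : (0 : ℝ) < (P : ℝ) := by exact_mod_cast hP
  have h1' : (2 * (P : ℝ)) ^ i * (K : ℝ) ≤ (N : ℝ) := by exact_mod_cast h1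
  unfold del
  push_cast
  rw [div_lt_div_iff₀ (by positivity) (by positivity), one_mul]
  have h2 : (2 * (k : ℝ) + 2) * (N : ℝ) *
      (2 * (2 * (2 * (P : ℝ)) ^ (k - 1) * (4 * (2 * (P : ℝ)) ^ i * (N : ℝ)))) * (K : ℝ) <
      (K : ℝ) ^ k * (K : ℝ) := by
    rw [← pow_succ]
    refine lt_of_le_of_lt ?_ key
    have e : (2 * (k : ℝ) + 2) * (N : ℝ) *
        (2 * (2 * (2 * (P : ℝ)) ^ (k - 1) * (4 * (2 * (P : ℝ)) ^ i * (N : ℝ)))) * (K : ℝ) =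
        (32 * ((k : ℝ) + 1) * (N : ℝ) ^ 2 * (2 * (P : ℝ)) ^ (k - 1)) *
          ((2 * (P : ℝ)) ^ i * (K : ℝ)) := by
      ring
    rw [e]
    calc (32 * ((k : ℝ) + 1) * (N : ℝ) ^ 2 * (2 * (P : ℝ)) ^ (k - 1)) *
          ((2 * (P : ℝ)) ^ i * (K : ℝ))
        ≤ (32 * ((k : ℝ) + 1) * (N : ℝ) ^ 2 * (2 * (P : ℝ)) ^ (k - 1)) * (N : ℝ) :=
          mul_le_mul_of_nonneg_left h1' (by positivity)
      _ = 32 * ((k : ℝ) + 1) * (N : ℝ) ^ 3 * (2 * (P : ℝ)) ^ (k - 1) := by ring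
  exact lt_of_mul_lt_mul_right h2 hK0.le

/-- the inequality of `n2_of` -/
theorem key_of (k i : ℕ) (hk : 3 ≤ k) (x y p e th a : ℝ) (hx : 1 ≤ x)
    (hth : (1 - th) * ((k : ℝ) + 1) = 3 + e * ((k : ℝ) + 1)) (hae : a ≤ e)
    (hp0 : 0 ≤ p) (hp : p ≤ x ^ a) (hy : x ^ (1 - th) / 2 ^ (i + 1) ≤ y)
    (hbig : 32 * ((k : ℝ) + 1) * 2 ^ (k - 1) * (2 ^ (i + 1)) ^ (k + 1) < x ^ (2 * e)) :
    32 * ((k : ℝ) + 1) * x ^ 3 * (2 * p) ^ (k - 1) < y ^ (k + 1) := by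
  have hx0 : 0 < x := by linarith
  have h1 : (2 * p) ^ (k - 1) ≤ 2 ^ (k - 1) * x ^ (e * ((k : ℝ) - 1)) := by
    rw [mul_pow]
    apply mul_le_mul_of_nonneg_left _ (by positivity)
    calc p ^ (k - 1) ≤ (x ^ e) ^ (k - 1) := by
          apply pow_le_pow_left₀ hp0
          exact hp.trans (Real.rpow_le_rpow_of_exponent_le hx hae)
      _ = x ^ (e * (((k - 1 : ℕ)) : ℝ)) := rpow_pow_eq x e (k - 1) hx0.le
      _ = x ^ (e * ((k : ℝ) - 1)) := by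
          rw [Nat.cast_sub (by omega), Nat.cast_one]
  have h2 : x ^ (3 + e * ((k : ℝ) + 1)) / (2 ^ (i + 1)) ^ (k + 1) ≤ y ^ (k + 1) := by
    calc x ^ (3 + e * ((k : ℝ) + 1)) / (2 ^ (i + 1)) ^ (k + 1)
        = (x ^ (1 - th) / 2 ^ (i + 1)) ^ (k + 1) := by
          rw [div_pow, rpow_pow_eq x (1 - th) (k + 1) hx0.le]
          congr 2
          push_cast
          exact hth.symm
      _ ≤ y ^ (k + 1) := pow_le_pow_left₀ (by positivity) hy _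
  have h3 : x ^ (3 + e * ((k : ℝ) + 1)) = x ^ 3 * x ^ (e * ((k : ℝ) - 1)) * x ^ (2 * e) := by
    rw [← Real.rpow_natCast x 3, ← Real.rpow_add hx0, ← Real.rpow_add hx0]
    congr 1
    push_cast
    ring
  refine lt_of_lt_of_le ?_ h2
  rw [lt_div_iff₀ (by positivity), h3]
  have hz : 0 < x ^ 3 * x ^ (e * ((k : ℝ) - 1)) := by positivity
  calc 32 * ((k : ℝ) + 1) * x ^ 3 * (2 * p) ^ (k - 1) * (2 ^ (i + 1)) ^ (k + 1)
      ≤ 32 * ((k : ℝ) + 1) * x ^ 3 * (2 ^ (k - 1) * x ^ (e * ((k : ℝ) - 1))) *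
          (2 ^ (i + 1)) ^ (k + 1) := by
        apply mul_le_mul_of_nonneg_right _ (by positivity)
        exact mul_le_mul_of_nonneg_left h1 (by positivity)
    _ = (x ^ 3 * x ^ (e * ((k : ℝ) - 1))) *
          (32 * ((k : ℝ) + 1) * 2 ^ (k - 1) * (2 ^ (i + 1)) ^ (k + 1)) := by ring
    _ < (x ^ 3 * x ^ (e * ((k : ℝ) - 1))) * x ^ (2 * e) := mul_lt_mul_of_pos_left hbig hz

theorem half_sq (y : ℝ) (hy : 2 ≤ y) : y ≤ y * y / 2 := by nlinarith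

theorem exps (θ ε : ℝ) (hθ : θ ≤ 1) (hε : 0 < ε) :
    θ - ε + 5 * ε / 8 ≤ (θ - ε / 4) * (1 - ε / 8) := by
  nlinarith [mul_le_mul_of_nonneg_right hθ hε.le, mul_pos hε hε]

/-- the bound for the number of the primes -/
theorem card_of (i B c : ℕ) (x θ ε e th a : ℝ) (hx : 1 ≤ x)
    (ha : a * (i : ℝ) = th) (hth : θ - ε + 5 * ε / 8 ≤ th * (1 - e))
    (hc : x ^ (a * (1 - e)) / 2 ≤ (c : ℝ)) (hB : 8 * (B : ℝ) ≤ x ^ (a * (1 - e)))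
    (hbig : (4 * (B : ℝ)) ^ i ≤ x ^ (5 * ε / 8)) :
    x ^ (θ - ε) * (B : ℝ) ^ i ≤ (((c - 2 * B) ^ i : ℕ) : ℝ) := by
  have hx0 : 0 < x := by linarith
  have h1 : 4 * (B : ℝ) ≤ (c : ℝ) := by linarith
  have h2 : 2 * B ≤ c := by
    have h3 : 4 * B ≤ c := by exact_mod_cast h1
    omega
  rw [Nat.cast_pow, Nat.cast_sub h2]
  push_cast
  have h3 : x ^ (a * (1 - e)) / 4 ≤ (c : ℝ) - 2 * (B : ℝ) := by linarith
  have h4 : (x ^ (a * (1 - e)) / 4) ^ i ≤ ((c : ℝ) - 2 * (B : ℝ)) ^ i :=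
    pow_le_pow_left₀ (by positivity) h3 i
  refine le_trans ?_ h4
  rw [div_pow, rpow_pow_eq x _ i hx0.le, le_div_iff₀ (by positivity)]
  have e1 : a * (1 - e) * (i : ℝ) = th * (1 - e) := by rw [← ha]; ring
  rw [e1]
  calc x ^ (θ - ε) * (B : ℝ) ^ i * 4 ^ i = x ^ (θ - ε) * (4 * (B : ℝ)) ^ i := by
        rw [mul_pow]; ring
    _ ≤ x ^ (θ - ε) * x ^ (5 * ε / 8) := mul_le_mul_of_nonneg_left hbig (by positivity)
    _ = x ^ (θ - ε + 5 * ε / 8) := by rw [Real.rpow_add hx0]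
    _ ≤ x ^ (th * (1 - e)) := Real.rpow_le_rpow_of_exponent_le hx hth

/-- NUMF for small `ε` -/
theorem numf_small (k : ℕ) (hk : 3 ≤ k) (prm : PrmStmt) (θ : ℝ) (hθ : θ * ((k : ℝ) + 1) = (k : ℝ) - 2)
    (ε : ℝ) (hε : 0 < ε) (hεθ : ε ≤ θ) :
    ∃ (i B N₀ : ℕ), ∀ N : ℕ, N₀ ≤ N → ∃ P K : ℕ, 2 ≤ P ∧
    NC k N K P i (4 * (2 * P) ^ i * N) ∧
    2 * (2 * P) ^ (k - 1) * (4 * (2 * P) ^ i * N) < P ^ B ∧
    4 * (2 * P) ^ i * N + 1 < P ^ B ∧ (2 * P) ^ i < P ^ B ∧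
    (N : ℝ) ^ (θ - ε) * (B : ℝ) ^ i ≤ ((((prs P).card - 2 * B) ^ i : ℕ) : ℝ) := by
  have hk3 : (3 : ℝ) ≤ (k : ℝ) := by exact_mod_cast hk
  have hθ0 : 0 < θ := by linarith
  have hθ1 : θ < 1 := by
    by_contra hc
    push Not at hc
    nlinarith
  -- the parameters
  obtain ⟨e1, he1⟩ : ∃ e1 : ℝ, e1 = ε / 4 := ⟨_, rfl⟩
  obtain ⟨th, hth⟩ : ∃ th : ℝ, th = θ - e1 := ⟨_, rfl⟩
  have he0 : 0 < e1 := by rw [he1]; linarith
  have hth0 : 0 < th := by rw [hth, he1]; linarith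
  have hth1 : th < 1 := by rw [hth]; linarith
  obtain ⟨i, hi⟩ := exists_nat_ge (1 / e1)
  have hi0 : (0 : ℝ) < (i : ℝ) := lt_of_lt_of_le (by positivity) hi
  obtain ⟨a, haeq⟩ : ∃ a : ℝ, a = th / (i : ℝ) := ⟨_, rfl⟩
  have ha0 : 0 < a := by rw [haeq]; positivity
  have hai : a * (i : ℝ) = th := by rw [haeq]; field_simp
  have hae : a ≤ e1 := by
    rw [haeq, div_le_iff₀ hi0]
    have h1 : 1 ≤ e1 * (i : ℝ) := by
      rw [div_le_iff₀ he0] at hi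
      linarith
    linarith
  obtain ⟨e, hedef⟩ : ∃ e : ℝ, e = ε / 8 := ⟨_, rfl⟩
  have hepos : 0 < e := by rw [hedef]; linarith
  have he1' : e < 1 := by rw [hedef]; linarith
  obtain ⟨B', hB'⟩ := exists_nat_ge (4 / a)
  obtain ⟨D₀, hD₀⟩ := prm e hepos
  -- large `N`
  have ev1 := Filter.eventually_ge_atTop (8 + 2 ^ (i * (k - 1)))
  have ev2 := ev_rpow a 4 ha0
  have ev3 := ev_rpow (a / 2) 2 (by positivity)
  have ev4 := ev_rpow (1 - th)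
    ((((4 * k * (1 + k * 2 ^ ((i + 1) * k)) : ℕ) : ℝ) + 1) * 2 ^ (i + 1)) (by linarith)
  have ev5 := ev_rpow (2 * e1)
    (32 * ((k : ℝ) + 1) * 2 ^ (k - 1) * (2 ^ (i + 1)) ^ (k + 1) + 1) (by positivity)
  have ev6 := ev_rpow a (2 * (D₀ : ℝ)) ha0
  have ev7 := ev_rpow (a * (1 - e)) (8 * ((2 * (i + k) + B' + 2 : ℕ) : ℝ))
    (mul_pos ha0 (by linarith))
  have ev8 := ev_rpow (5 * ε / 8) ((4 * ((2 * (i + k) + B' + 2 : ℕ) : ℝ)) ^ i) (by positivity)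
  obtain ⟨N₀, hN₀⟩ := Filter.eventually_atTop.mp
    ((ev1.and (ev2.and (ev3.and ev4))).and (ev5.and (ev6.and (ev7.and ev8))))
  refine ⟨i, 2 * (i + k) + B' + 2, N₀, fun N hN => ?_⟩
  obtain ⟨⟨c1, c2, c3, c4⟩, c5, c6, c7, c8⟩ := hN₀ N hN
  have hN8 : 8 ≤ N := le_trans (Nat.le_add_right _ _) c1
  have hNpow : 2 ^ (i * (k - 1)) ≤ N := le_trans (Nat.le_add_left _ _) c1
  have hx8 : (8 : ℝ) ≤ (N : ℝ) := by exact_mod_cast hN8
  have hx1 : (1 : ℝ) ≤ (N : ℝ) := by linarith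
  have hx0 : (0 : ℝ) < (N : ℝ) := by linarith
  obtain ⟨hP2, hPle, hPge⟩ := floor_props (N : ℝ) a hx0.le c2
  generalize ⌊(N : ℝ) ^ a⌋₊ = P at hP2 hPle hPge
  have hPr : (2 : ℝ) ≤ (P : ℝ) := by exact_mod_cast hP2
  -- the power `(2P)^i`
  have hpow : (2 * (P : ℝ)) ^ i ≤ 2 ^ i * (N : ℝ) ^ th := by
    rw [mul_pow]
    apply mul_le_mul_of_nonneg_left _ (by positivity)
    calc (P : ℝ) ^ i ≤ ((N : ℝ) ^ a) ^ i := pow_le_pow_left₀ (by positivity) hPle i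
      _ = (N : ℝ) ^ th := by rw [rpow_pow_eq _ _ _ hx0.le, hai]
  have hsplit : (N : ℝ) ^ (1 - th) * (N : ℝ) ^ th = (N : ℝ) := by
    rw [← Real.rpow_add hx0]
    norm_num
  have hthpos : (0 : ℝ) < (N : ℝ) ^ th := Real.rpow_pos_of_pos hx0 _
  have hA4 : (0 : ℝ) ≤ ((4 * k * (1 + k * 2 ^ ((i + 1) * k)) : ℕ) : ℝ) := Nat.cast_nonneg _
  have hleN : (2 * P) ^ i ≤ N := by
    have h1 : (2 * (P : ℝ)) ^ i ≤ (N : ℝ) := by
      refine hpow.trans ?_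
      calc (2 : ℝ) ^ i * (N : ℝ) ^ th ≤ (N : ℝ) ^ (1 - th) * (N : ℝ) ^ th := by
            apply mul_le_mul_of_nonneg_right _ hthpos.le
            refine le_trans ?_ c4
            have h2 : (2 : ℝ) ^ i ≤ 2 ^ (i + 1) := pow_le_pow_right₀ (by norm_num) (by omega)
            have h3 : (0 : ℝ) < 2 ^ (i + 1) := by positivity
            nlinarith
        _ = (N : ℝ) := hsplit
    exact_mod_cast h1
  have h2Ppos : 0 < (2 * P) ^ i := Nat.pow_pos (by omega)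
  obtain ⟨K, hKdef⟩ : ∃ K : ℕ, K = N / (2 * P) ^ i := ⟨_, rfl⟩
  have hK1 : 1 ≤ K := by
    rw [hKdef]
    exact Nat.div_pos hleN h2Ppos
  have n1 : (2 * P) ^ i * K ≤ N := by
    rw [hKdef]
    exact Nat.mul_div_le N _
  have n1' : N ≤ 2 * (2 * P) ^ i * K := by
    have h1 : N < (2 * P) ^ i * (K + 1) := by
      rw [hKdef]
      exact Nat.lt_mul_div_succ N h2Ppos
    nlinarith
  have hK0 : (0 : ℝ) < (K : ℝ) := by exact_mod_cast hK1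
  have hKr : (N : ℝ) ^ (1 - th) / 2 ^ (i + 1) ≤ (K : ℝ) := by
    rw [div_le_iff₀ (by positivity)]
    have h1 : (N : ℝ) ≤ 2 * (2 * (P : ℝ)) ^ i * (K : ℝ) := by exact_mod_cast n1'
    have h2 : (N : ℝ) ^ (1 - th) * (N : ℝ) ^ th ≤ (K : ℝ) * 2 ^ (i + 1) * (N : ℝ) ^ th := by
      rw [hsplit]
      refine h1.trans ?_
      calc 2 * (2 * (P : ℝ)) ^ i * (K : ℝ) ≤ 2 * (2 ^ i * (N : ℝ) ^ th) * (K : ℝ) := by
            apply mul_le_mul_of_nonneg_right _ hK0.le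
            exact mul_le_mul_of_nonneg_left hpow (by norm_num)
        _ = (K : ℝ) * 2 ^ (i + 1) * (N : ℝ) ^ th := by ring
    exact le_of_mul_le_mul_right h2 hthpos
  have n4 : 4 * k * (1 + k * 2 ^ ((i + 1) * k)) < K := by
    have h1 : ((4 * k * (1 + k * 2 ^ ((i + 1) * k)) : ℕ) : ℝ) < (K : ℝ) := by
      have h2 : ((4 * k * (1 + k * 2 ^ ((i + 1) * k)) : ℕ) : ℝ) + 1 ≤
          (N : ℝ) ^ (1 - th) / 2 ^ (i + 1) := by
        rw [le_div_iff₀ (by positivity)]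
        exact c4
      linarith
    exact_mod_cast h1
  have hthk : (1 - th) * ((k : ℝ) + 1) = 3 + e1 * ((k : ℝ) + 1) := by
    rw [hth]
    linear_combination (-1) * hθ
  have key := key_of k i hk (N : ℝ) (K : ℝ) (P : ℝ) e1 th a hx1 hthk hae (by positivity)
    hPle hKr (by linarith)
  have n2 := n2_of k N K P i hK1 (by omega) (by omega) n1 key
  -- `P ^ B'`
  have hPB : N ^ 2 ≤ P ^ B' := by
    have h1 : (N : ℝ) ^ (a / 2) ≤ (P : ℝ) := by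
      refine le_trans ?_ hPge
      have h2 : (N : ℝ) ^ a = (N : ℝ) ^ (a / 2) * (N : ℝ) ^ (a / 2) := by
        rw [← Real.rpow_add hx0]
        congr 1
        ring
      rw [h2]
      exact half_sq _ c3
    have h3 : ((N : ℝ)) ^ 2 ≤ (P : ℝ) ^ B' := by
      calc (N : ℝ) ^ 2 = (N : ℝ) ^ (2 : ℝ) := by
            rw [← Real.rpow_natCast]
            norm_num
        _ ≤ (N : ℝ) ^ (a / 2 * (B' : ℝ)) := by
            apply Real.rpow_le_rpow_of_exponent_le hx1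
            rw [div_le_iff₀ ha0] at hB'
            linarith
        _ = ((N : ℝ) ^ (a / 2)) ^ B' := (rpow_pow_eq _ _ _ hx0.le).symm
        _ ≤ (P : ℝ) ^ B' := pow_le_pow_left₀ (by positivity) h1 _
    exact_mod_cast h3
  obtain ⟨q1, q2, q3⟩ := pow_props N P i k B' (by omega) hN8 hP2 hPB
  refine ⟨P, K, hP2, ⟨by omega, by omega, hK1, by omega, rfl, n1, n1', n2, hNpow, n4⟩,
    q1, q2, q3, ?_⟩
  have hPD : D₀ ≤ P := by
    have h1 : (D₀ : ℝ) ≤ (P : ℝ) := by linarith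
    exact_mod_cast h1
  have hprm := hD₀ P hPD
  have hcard : (N : ℝ) ^ (a * (1 - e)) / 2 ≤ ((prs P).card : ℝ) := by
    refine le_trans ?_ hprm
    calc (N : ℝ) ^ (a * (1 - e)) / 2 ≤ (N : ℝ) ^ (a * (1 - e)) / 2 ^ (1 - e) := by
          apply div_le_div_of_nonneg_left (by positivity) (by positivity)
          calc (2 : ℝ) ^ (1 - e) ≤ 2 ^ (1 : ℝ) :=
                Real.rpow_le_rpow_of_exponent_le (by norm_num) (by linarith)
            _ = 2 := by norm_num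
      _ = ((N : ℝ) ^ a / 2) ^ (1 - e) := by
          rw [Real.div_rpow (by positivity) (by norm_num), Real.rpow_mul hx0.le]
      _ ≤ (P : ℝ) ^ (1 - e) := Real.rpow_le_rpow (by positivity) hPge (by linarith)
  exact card_of i (2 * (i + k) + B' + 2) (prs P).card (N : ℝ) θ ε e th a hx1 hai (by
    rw [hth, he1, hedef]
    exact exps θ ε hθ1.le hε) hcard c7 c8

/-- NUMF -/
theorem numf (k : ℕ) (hk : 3 ≤ k) (prm : PrmStmt) :
    NumFStmt k (((k : ℝ) - 2) / ((k : ℝ) + 1)) := by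
  have hk3 : (3 : ℝ) ≤ (k : ℝ) := by exact_mod_cast hk
  have hθ : (((k : ℝ) - 2) / ((k : ℝ) + 1)) * ((k : ℝ) + 1) = (k : ℝ) - 2 := by
    field_simp
  have hθ0 : 0 < ((k : ℝ) - 2) / ((k : ℝ) + 1) := div_pos (by linarith) (by linarith)
  intro ε hε
  obtain ⟨i, B, N₀, h⟩ := numf_small k hk prm _ hθ
    (min ε (((k : ℝ) - 2) / ((k : ℝ) + 1))) (lt_min hε hθ0) (min_le_right _ _)
  refine ⟨i, B, max N₀ 1, fun N hN => ?_⟩
  obtain ⟨P, K, h1, h2, h3, h4, h5, h6⟩ := h N (le_trans (le_max_left _ _) hN)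
  refine ⟨P, K, h1, h2, h3, h4, h5, le_trans ?_ h6⟩
  have hN1 : 1 ≤ N := le_trans (le_max_right _ _) hN
  have hN1' : (1 : ℝ) ≤ (N : ℝ) := by exact_mod_cast hN1
  apply mul_le_mul_of_nonneg_right _ (by positivity)
  apply Real.rpow_le_rpow_of_exponent_le hN1'
  have := min_le_left ε (((k : ℝ) - 2) / ((k : ℝ) + 1))
  linarith

end Pool.Agent.VM.H24N
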