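import Mathlib
import Pool.Agent.Helper24_VM.Numf
import Pool.Agent.Helper56_VP.Stmts

/-!
# NUMP: the choice of the parameters for pure powers, `θ = (k - 2) / k`
-/

set_option autoImplicit false

namespace Pool.Agent.VM.H24P

open Pool.Agent.VM Pool.Agent.VM.H7 Pool.Agent.VM.H24N Pool.Agent.VM.H56P

/-- the natural numbers: the powers of `P` -/
theorem pow_props' (N P i k m B' : ℕ) (hN : 8 ≤ N) (hP : 2 ≤ P) (hm : m ≤ N)
    (hB : N ^ 3 ≤ P ^ B') :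
    2 * (2 * P) ^ (k - 2) * (2 * (2 * P) ^ i * N) < P ^ (2 * (i + k) + B' + 2) ∧
    2 * m * (2 * (2 * P) ^ i * N) + 1 < P ^ (2 * (i + k) + B' + 2) ∧
    (2 * P) ^ i < P ^ (2 * (i + k) + B' + 2) := by
  have h2P : 2 * P ≤ P ^ 2 := by nlinarith
  have hj : ∀ j : ℕ, (2 * P) ^ j ≤ P ^ (2 * j) := by
    intro j
    rw [pow_mul]
    exact Nat.pow_le_pow_left h2P j
  have h64 : 64 * N ≤ N ^ 3 := by
    have h1 : 8 * 8 ≤ N * N := Nat.mul_le_mul hN hN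
    calc 64 * N = (8 * 8) * N := by ring
      _ ≤ (N * N) * N := Nat.mul_le_mul_right _ h1
      _ = N ^ 3 := by ring
  have hmN : 4 * m * N + 1 ≤ N ^ 3 := by
    have h1 : m * N ≤ N * N := Nat.mul_le_mul_right _ hm
    have h2 : 8 * (N * N) ≤ N * (N * N) := Nat.mul_le_mul_right _ hN
    calc 4 * m * N + 1 = 4 * (m * N) + 1 := by ring
      _ ≤ 4 * (N * N) + 1 := by omega
      _ ≤ 8 * (N * N) := by nlinarith
      _ ≤ N * (N * N) := h2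
      _ = N ^ 3 := by ring
  have h8 : 8 * N ≤ P ^ B' := le_trans (by omega) hB
  have h1 : 1 ≤ (2 * P) ^ i := Nat.one_le_pow _ _ (by omega)
  refine ⟨?_, ?_, ?_⟩
  · calc 2 * (2 * P) ^ (k - 2) * (2 * (2 * P) ^ i * N)
        = (4 * N) * ((2 * P) ^ (k - 2) * (2 * P) ^ i) := by ring
      _ ≤ P ^ B' * (P ^ (2 * (k - 2)) * P ^ (2 * i)) :=
          Nat.mul_le_mul (by omega) (Nat.mul_le_mul (hj _) (hj _))
      _ = P ^ (B' + (2 * (k - 2) + 2 * i)) := by rw [pow_add, pow_add]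
      _ < P ^ (2 * (i + k) + B' + 2) := Nat.pow_lt_pow_right (by omega) (by omega)
  · calc 2 * m * (2 * (2 * P) ^ i * N) + 1 ≤ (2 * P) ^ i * (4 * m * N + 1) := by nlinarith
      _ ≤ P ^ (2 * i) * P ^ B' := Nat.mul_le_mul (hj _) (hmN.trans hB)
      _ = P ^ (2 * i + B') := by rw [pow_add]
      _ < P ^ (2 * (i + k) + B' + 2) := Nat.pow_lt_pow_right (by omega) (by omega)
  · calc (2 * P) ^ i ≤ P ^ (2 * i) := hj i
      _ < P ^ (2 * (i + k) + B' + 2) := Nat.pow_lt_pow_right (by omega) (by omega)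

/-- the conditions `n3`, `n5`, `n6` from one inequality in `ℝ` -/
theorem n356 (k N K P i : ℕ) (hk : 4 ≤ k) (hK : 1 ≤ K) (hN : 1 ≤ N) (hP : 1 ≤ P)
    (key : 16 * ((k * (k - 1) : ℕ) : ℝ) ^ 2 * 2 ^ i * (2 * (P : ℝ)) ^ (k - 2) * (N : ℝ) ^ 2 <
      (K : ℝ) ^ k) :
    4 * ((k * (k - 1) : ℕ) : ℝ) * (N : ℝ) ^ 2 < (K : ℝ) ^ k ∧
    dl k N K P i < 1 / (2 * ((2 * (k * (k - 1)) * (2 * (2 * P) ^ i * N) : ℕ) : ℝ)) ∧
    dl k N K P i < 1 / (2 * ((2 * (2 * P) ^ (k - 2) * (2 * (2 * P) ^ i * N) : ℕ) : ℝ)) := by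
  have hK0 : (0 : ℝ) < (K : ℝ) := by exact_mod_cast hK
  have hN0 : (0 : ℝ) < (N : ℝ) := by exact_mod_cast hN
  have hP0 : (0 : ℝ) < (P : ℝ) := by exact_mod_cast hP
  have hP1 : (1 : ℝ) ≤ (P : ℝ) := by exact_mod_cast hP
  have hm1 : 1 ≤ k * (k - 1) := Nat.mul_pos (by omega) (by omega)
  unfold dl
  generalize k * (k - 1) = m at *
  have hm : (1 : ℝ) ≤ (m : ℝ) := by exact_mod_cast hm1
  have hm0 : (0 : ℝ) < (m : ℝ) := by linarith
  have h2i : (1 : ℝ) ≤ 2 ^ i := one_le_pow₀ (by norm_num)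
  have h2P : (1 : ℝ) ≤ (2 * (P : ℝ)) ^ (k - 2) := one_le_pow₀ (by linarith)
  have hm2 : (m : ℝ) ≤ (m : ℝ) ^ 2 := by nlinarith
  have hN2 : (0 : ℝ) < (N : ℝ) ^ 2 := by positivity
  refine ⟨lt_of_le_of_lt ?_ key, ?_, ?_⟩
  · calc 4 * (m : ℝ) * (N : ℝ) ^ 2 ≤ (16 * (m : ℝ) ^ 2) * (N : ℝ) ^ 2 := by
          apply mul_le_mul_of_nonneg_right _ hN2.le
          nlinarith
      _ = 16 * (m : ℝ) ^ 2 * 1 * 1 * (N : ℝ) ^ 2 := by ring
      _ ≤ 16 * (m : ℝ) ^ 2 * 2 ^ i * (2 * (P : ℝ)) ^ (k - 2) * (N : ℝ) ^ 2 := by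
          apply mul_le_mul_of_nonneg_right _ hN2.le
          apply mul_le_mul _ h2P (by norm_num) (by positivity)
          exact mul_le_mul_of_nonneg_left h2i (by positivity)
  · push_cast
    rw [div_lt_div_iff₀ (by positivity) (by positivity), one_mul]
    have h1 : 16 * (m : ℝ) ^ 2 * 2 ^ i * (N : ℝ) ^ 2 < (K : ℝ) ^ k := by
      refine lt_of_le_of_lt ?_ key
      apply mul_le_mul_of_nonneg_right _ hN2.le
      exact le_mul_of_one_le_right (by positivity) h2P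
    calc 2 * (m : ℝ) * (N : ℝ) * (2 * (2 * (m : ℝ) * (2 * (2 * (P : ℝ)) ^ i * (N : ℝ))))
        = (P : ℝ) ^ i * (16 * (m : ℝ) ^ 2 * 2 ^ i * (N : ℝ) ^ 2) := by
          rw [mul_pow]; ring
      _ < (P : ℝ) ^ i * (K : ℝ) ^ k := mul_lt_mul_of_pos_left h1 (by positivity)
  · push_cast
    rw [div_lt_div_iff₀ (by positivity) (by positivity), one_mul]
    have h1 : 16 * (m : ℝ) * 2 ^ i * (2 * (P : ℝ)) ^ (k - 2) * (N : ℝ) ^ 2 < (K : ℝ) ^ k := by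
      refine lt_of_le_of_lt ?_ key
      apply mul_le_mul_of_nonneg_right _ hN2.le
      apply mul_le_mul_of_nonneg_right _ (by positivity)
      apply mul_le_mul_of_nonneg_right _ (by positivity)
      exact mul_le_mul_of_nonneg_left hm2 (by norm_num)
    calc 2 * (m : ℝ) * (N : ℝ) *
          (2 * (2 * (2 * (P : ℝ)) ^ (k - 2) * (2 * (2 * (P : ℝ)) ^ i * (N : ℝ))))
        = (P : ℝ) ^ i * (16 * (m : ℝ) * 2 ^ i * (2 * (P : ℝ)) ^ (k - 2) * (N : ℝ) ^ 2) := by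
          rw [mul_pow (2 : ℝ) (P : ℝ) i]; ring
      _ < (P : ℝ) ^ i * (K : ℝ) ^ k := mul_lt_mul_of_pos_left h1 (by positivity)

/-- the inequality of `n356` -/
theorem key_of' (k i : ℕ) (hk : 4 ≤ k) (m x y p e th a : ℝ) (hx : 1 ≤ x)
    (hth : (1 - th) * (k : ℝ) = 2 + e * (k : ℝ)) (hae : a ≤ e)
    (hp0 : 0 ≤ p) (hp : p ≤ x ^ a) (hy : x ^ (1 - th) / 2 ^ (i + 1) ≤ y)
    (hbig : 16 * m ^ 2 * 2 ^ i * 2 ^ (k - 2) * (2 ^ (i + 1)) ^ k < x ^ (2 * e)) :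
    16 * m ^ 2 * 2 ^ i * (2 * p) ^ (k - 2) * x ^ 2 < y ^ k := by
  have hx0 : 0 < x := by linarith
  have h1 : (2 * p) ^ (k - 2) ≤ 2 ^ (k - 2) * x ^ (e * ((k : ℝ) - 2)) := by
    rw [mul_pow]
    apply mul_le_mul_of_nonneg_left _ (by positivity)
    calc p ^ (k - 2) ≤ (x ^ e) ^ (k - 2) := by
          apply pow_le_pow_left₀ hp0
          exact hp.trans (Real.rpow_le_rpow_of_exponent_le hx hae)
      _ = x ^ (e * (((k - 2 : ℕ)) : ℝ)) := rpow_pow_eq x e (k - 2) hx0.le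
      _ = x ^ (e * ((k : ℝ) - 2)) := by
          rw [Nat.cast_sub (by omega), Nat.cast_ofNat]
  have h2 : x ^ (2 + e * (k : ℝ)) / (2 ^ (i + 1)) ^ k ≤ y ^ k := by
    calc x ^ (2 + e * (k : ℝ)) / (2 ^ (i + 1)) ^ k
        = (x ^ (1 - th) / 2 ^ (i + 1)) ^ k := by
          rw [div_pow, rpow_pow_eq x (1 - th) k hx0.le, hth]
      _ ≤ y ^ k := pow_le_pow_left₀ (by positivity) hy _
  have h3 : x ^ (2 + e * (k : ℝ)) = x ^ 2 * x ^ (e * ((k : ℝ) - 2)) * x ^ (2 * e) := by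
    rw [← Real.rpow_natCast x 2, ← Real.rpow_add hx0, ← Real.rpow_add hx0]
    congr 1
    push_cast
    ring
  refine lt_of_lt_of_le ?_ h2
  rw [lt_div_iff₀ (by positivity), h3]
  have hz : 0 < x ^ 2 * x ^ (e * ((k : ℝ) - 2)) := by positivity
  calc 16 * m ^ 2 * 2 ^ i * (2 * p) ^ (k - 2) * x ^ 2 * (2 ^ (i + 1)) ^ k
      ≤ 16 * m ^ 2 * 2 ^ i * (2 ^ (k - 2) * x ^ (e * ((k : ℝ) - 2))) * x ^ 2 *
          (2 ^ (i + 1)) ^ k := by
        apply mul_le_mul_of_nonneg_right _ (by positivity)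
        apply mul_le_mul_of_nonneg_right _ (by positivity)
        exact mul_le_mul_of_nonneg_left h1 (by positivity)
    _ = (x ^ 2 * x ^ (e * ((k : ℝ) - 2))) *
          (16 * m ^ 2 * 2 ^ i * 2 ^ (k - 2) * (2 ^ (i + 1)) ^ k) := by ring
    _ < (x ^ 2 * x ^ (e * ((k : ℝ) - 2))) * x ^ (2 * e) := mul_lt_mul_of_pos_left hbig hz

/-- NUMP for small `ε` -/
theorem nump_small (k : ℕ) (hk : 4 ≤ k) (prm : PrmStmt) (θ : ℝ) (hθ : θ * (k : ℝ) = (k : ℝ) - 2)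
    (ε : ℝ) (hε : 0 < ε) (hεθ : ε ≤ θ) :
    ∃ (i B N₀ : ℕ), ∀ N : ℕ, N₀ ≤ N → ∃ P K Q : ℕ,
    NP k N K P i Q ∧
    2 * (2 * P) ^ (k - 2) * (2 * (2 * P) ^ i * N) < P ^ B ∧
    Q + 1 < P ^ B ∧ (2 * P) ^ i < P ^ B ∧
    (N : ℝ) ^ (θ - ε) * (B : ℝ) ^ i ≤ ((((H7.prs P).card - 2 * B) ^ i : ℕ) : ℝ) := by
  have hk3 : (4 : ℝ) ≤ (k : ℝ) := by exact_mod_cast hk
  have hθ0 : 0 < θ := by linarith
  have hθ1 : θ < 1 := by
    by_contra hc
    push Not at hc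
    nlinarith
  -- the parameters
  obtain ⟨e1, he1⟩ : ∃ e1 : ℝ, e1 = ε / 4 := ⟨_, rfl⟩
  obtain ⟨th, hth⟩ : ∃ th : ℝ, th = θ - e1 := ⟨_, rfl⟩
  have he0 : 0 < e1 := by rw [he1]; linarith
  have hth0 : 0 < th := by rw [hth, he1]; linarith
  have hth1 : th < 1 := by rw [hth]; linarith
  obtain ⟨i, hi⟩ := exists_nat_ge (1 / e1)
  have hi0 : (0 : ℝ) < (i : ℝ) := lt_of_lt_of_le (by positivity) hi
  obtain ⟨a, haeq⟩ : ∃ a : ℝ, a = th / (i : ℝ) := ⟨_, rfl⟩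
  have ha0 : 0 < a := by rw [haeq]; positivity
  have hai : a * (i : ℝ) = th := by rw [haeq]; field_simp
  have hae : a ≤ e1 := by
    rw [haeq, div_le_iff₀ hi0]
    have h1 : 1 ≤ e1 * (i : ℝ) := by
      rw [div_le_iff₀ he0] at hi
      linarith
    linarith
  obtain ⟨e, hedef⟩ : ∃ e : ℝ, e = ε / 8 := ⟨_, rfl⟩
  have hepos : 0 < e := by rw [hedef]; linarith
  have he1' : e < 1 := by rw [hedef]; linarith
  obtain ⟨B', hB'⟩ := exists_nat_ge (6 / a)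
  obtain ⟨D₀, hD₀⟩ := prm e hepos
  -- large `N`
  have ev1 := Filter.eventually_ge_atTop (8 + k * (k - 1))
  have ev2 := ev_rpow a 4 ha0
  have ev3 := ev_rpow (a / 2) 2 (by positivity)
  have ev4 := ev_rpow (1 - th) (2 ^ (i + 1)) (by linarith)
  have ev5 := ev_rpow (2 * e1)
    (16 * ((k * (k - 1) : ℕ) : ℝ) ^ 2 * 2 ^ i * 2 ^ (k - 2) * (2 ^ (i + 1)) ^ k + 1)
    (by positivity)
  have ev6 := ev_rpow a (2 * (D₀ : ℝ)) ha0
  have ev7 := ev_rpow (a * (1 - e)) (8 * ((2 * (i + k) + B' + 2 : ℕ) : ℝ))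
    (mul_pos ha0 (by linarith))
  have ev8 := ev_rpow (5 * ε / 8) ((4 * ((2 * (i + k) + B' + 2 : ℕ) : ℝ)) ^ i) (by positivity)
  obtain ⟨N₀, hN₀⟩ := Filter.eventually_atTop.mp
    ((ev1.and (ev2.and (ev3.and ev4))).and (ev5.and (ev6.and (ev7.and ev8))))
  refine ⟨i, 2 * (i + k) + B' + 2, N₀, fun N hN => ?_⟩
  obtain ⟨⟨c1, c2, c3, c4⟩, c5, c6, c7, c8⟩ := hN₀ N hN
  have hN8 : 8 ≤ N := le_trans (Nat.le_add_right _ _) c1
  have hNm : k * (k - 1) ≤ N := le_trans (Nat.le_add_left _ _) c1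
  have hx8 : (8 : ℝ) ≤ (N : ℝ) := by exact_mod_cast hN8
  have hx1 : (1 : ℝ) ≤ (N : ℝ) := by linarith
  have hx0 : (0 : ℝ) < (N : ℝ) := by linarith
  obtain ⟨hP2, hPle, hPge⟩ := floor_props (N : ℝ) a hx0.le c2
  generalize ⌊(N : ℝ) ^ a⌋₊ = P at hP2 hPle hPge
  have hPr : (2 : ℝ) ≤ (P : ℝ) := by exact_mod_cast hP2
  -- the power `(2P)^i`
  have hpow : (2 * (P : ℝ)) ^ i ≤ 2 ^ i * (N : ℝ) ^ th := by
    rw [mul_pow]
    apply mul_le_mul_of_nonneg_left _ (by positivity)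
    calc (P : ℝ) ^ i ≤ ((N : ℝ) ^ a) ^ i := pow_le_pow_left₀ (by positivity) hPle i
      _ = (N : ℝ) ^ th := by rw [rpow_pow_eq _ _ _ hx0.le, hai]
  have hsplit : (N : ℝ) ^ (1 - th) * (N : ℝ) ^ th = (N : ℝ) := by
    rw [← Real.rpow_add hx0]
    norm_num
  have hthpos : (0 : ℝ) < (N : ℝ) ^ th := Real.rpow_pos_of_pos hx0 _
  have hleN : (2 * P) ^ i ≤ N := by
    have h1 : (2 * (P : ℝ)) ^ i ≤ (N : ℝ) := by
      refine hpow.trans ?_
      calc (2 : ℝ) ^ i * (N : ℝ) ^ th ≤ (N : ℝ) ^ (1 - th) * (N : ℝ) ^ th := by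
            apply mul_le_mul_of_nonneg_right _ hthpos.le
            exact le_trans (pow_le_pow_right₀ (by norm_num) (by omega)) c4
        _ = (N : ℝ) := hsplit
    exact_mod_cast h1
  have h2Ppos : 0 < (2 * P) ^ i := Nat.pow_pos (by omega)
  obtain ⟨K, hKdef⟩ : ∃ K : ℕ, K = N / (2 * P) ^ i := ⟨_, rfl⟩
  have hK1 : 1 ≤ K := by
    rw [hKdef]
    exact Nat.div_pos hleN h2Ppos
  have n1 : (2 * P) ^ i * K ≤ N := by
    rw [hKdef]
    exact Nat.mul_div_le N _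
  have n1' : N ≤ 2 * ((2 * P) ^ i * K) := by
    have h1 : N < (2 * P) ^ i * (K + 1) := by
      rw [hKdef]
      exact Nat.lt_mul_div_succ N h2Ppos
    nlinarith
  have hK0 : (0 : ℝ) < (K : ℝ) := by exact_mod_cast hK1
  have hKr : (N : ℝ) ^ (1 - th) / 2 ^ (i + 1) ≤ (K : ℝ) := by
    rw [div_le_iff₀ (by positivity)]
    have h1 : (N : ℝ) ≤ 2 * ((2 * (P : ℝ)) ^ i * (K : ℝ)) := by exact_mod_cast n1'
    have h2 : (N : ℝ) ^ (1 - th) * (N : ℝ) ^ th ≤ (K : ℝ) * 2 ^ (i + 1) * (N : ℝ) ^ th := by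
      rw [hsplit]
      refine h1.trans ?_
      calc 2 * ((2 * (P : ℝ)) ^ i * (K : ℝ)) ≤ 2 * ((2 ^ i * (N : ℝ) ^ th) * (K : ℝ)) := by
            apply mul_le_mul_of_nonneg_left _ (by norm_num)
            exact mul_le_mul_of_nonneg_right hpow hK0.le
        _ = (K : ℝ) * 2 ^ (i + 1) * (N : ℝ) ^ th := by ring
    exact le_of_mul_le_mul_right h2 hthpos
  have hthk : (1 - th) * (k : ℝ) = 2 + e1 * (k : ℝ) := by
    rw [hth]
    linear_combination (-1) * hθ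
  have key := key_of' k i hk ((k * (k - 1) : ℕ) : ℝ) (N : ℝ) (K : ℝ) (P : ℝ) e1 th a hx1 hthk
    hae (by positivity) hPle hKr (by linarith)
  obtain ⟨n3, n5, n6⟩ := n356 k N K P i hk hK1 (by omega) (by omega) key
  -- `P ^ B'`
  have hPB : N ^ 3 ≤ P ^ B' := by
    have h1 : (N : ℝ) ^ (a / 2) ≤ (P : ℝ) := by
      refine le_trans ?_ hPge
      have h2 : (N : ℝ) ^ a = (N : ℝ) ^ (a / 2) * (N : ℝ) ^ (a / 2) := by
        rw [← Real.rpow_add hx0]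
        congr 1
        ring
      rw [h2]
      exact half_sq _ c3
    have h3 : ((N : ℝ)) ^ 3 ≤ (P : ℝ) ^ B' := by
      calc (N : ℝ) ^ 3 = (N : ℝ) ^ (3 : ℝ) := by
            rw [← Real.rpow_natCast]
            norm_num
        _ ≤ (N : ℝ) ^ (a / 2 * (B' : ℝ)) := by
            apply Real.rpow_le_rpow_of_exponent_le hx1
            rw [div_le_iff₀ ha0] at hB'
            linarith
        _ = ((N : ℝ) ^ (a / 2)) ^ B' := (rpow_pow_eq _ _ _ hx0.le).symm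
        _ ≤ (P : ℝ) ^ B' := pow_le_pow_left₀ (by positivity) h1 _
    exact_mod_cast h3
  obtain ⟨q1, q2, q3⟩ := pow_props' N P i k (k * (k - 1)) B' hN8 hP2 hNm hPB
  refine ⟨P, K, 2 * (k * (k - 1)) * (2 * (2 * P) ^ i * N),
    ⟨hk, hK1, hP2, n1, n1', n3, le_refl _, n5, n6⟩, q1, q2, q3, ?_⟩
  have hPD : D₀ ≤ P := by
    have h1 : (D₀ : ℝ) ≤ (P : ℝ) := by linarith
    exact_mod_cast h1
  have hprm := hD₀ P hPD
  have hcard : (N : ℝ) ^ (a * (1 - e)) / 2 ≤ ((prs P).card : ℝ) := by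
    refine le_trans ?_ hprm
    calc (N : ℝ) ^ (a * (1 - e)) / 2 ≤ (N : ℝ) ^ (a * (1 - e)) / 2 ^ (1 - e) := by
          apply div_le_div_of_nonneg_left (by positivity) (by positivity)
          calc (2 : ℝ) ^ (1 - e) ≤ 2 ^ (1 : ℝ) :=
                Real.rpow_le_rpow_of_exponent_le (by norm_num) (by linarith)
            _ = 2 := by norm_num
      _ = ((N : ℝ) ^ a / 2) ^ (1 - e) := by
          rw [Real.div_rpow (by positivity) (by norm_num), Real.rpow_mul hx0.le]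
      _ ≤ (P : ℝ) ^ (1 - e) := Real.rpow_le_rpow (by positivity) hPge (by linarith)
  exact card_of i (2 * (i + k) + B' + 2) (prs P).card (N : ℝ) θ ε e th a hx1 hai (by
    rw [hth, he1, hedef]
    exact exps θ ε hθ1.le hε) hcard c7 c8

/-- NUMP -/
theorem nump (k : ℕ) (hk : 4 ≤ k) (prm : PrmStmt) :
    NumPStmt k (((k : ℝ) - 2) / (k : ℝ)) := by
  have hk3 : (4 : ℝ) ≤ (k : ℝ) := by exact_mod_cast hk
  have hk0 : (k : ℝ) ≠ 0 := by linarith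
  have hθ : (((k : ℝ) - 2) / (k : ℝ)) * (k : ℝ) = (k : ℝ) - 2 := by
    field_simp
  have hθ0 : 0 < ((k : ℝ) - 2) / (k : ℝ) := div_pos (by linarith) (by linarith)
  intro ε hε
  obtain ⟨i, B, N₀, h⟩ := nump_small k hk prm _ hθ
    (min ε (((k : ℝ) - 2) / (k : ℝ))) (lt_min hε hθ0) (min_le_right _ _)
  refine ⟨i, B, max N₀ 1, fun N hN => ?_⟩
  obtain ⟨P, K, Q, h1, h2, h3, h4, h5⟩ := h N (le_trans (le_max_left _ _) hN)
  refine ⟨P, K, Q, h1, h2, h3, h4, le_trans ?_ h5⟩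
  have hN1 : 1 ≤ N := le_trans (le_max_right _ _) hN
  have hN1' : (1 : ℝ) ≤ (N : ℝ) := by exact_mod_cast hN1
  apply mul_le_mul_of_nonneg_right _ (by positivity)
  apply Real.rpow_le_rpow_of_exponent_le hN1'
  have := min_le_left ε (((k : ℝ) - 2) / (k : ℝ))
  linarith

end Pool.Agent.VM.H24P
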